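import Pool.Agent.Lib.Pad47bbF.Rat

/-!
Descent of the movable cone conjecture along rational contractions.

Dictionary. `Y` is a `ℚ`-factorial projective variety, `V = N¹(Y)_ℝ`, `L` = classes of the Weil
divisors, `ι` = set of the prime divisors of `Y`, `f i` = class of `i`, `G` = image of `PsAut(Y)`.
Then `eff (range f) = Eff(Y)`, and `movF f` is the closed movable cone of `Y`, since a class is a
limit of movable classes if and only if it is, for every prime divisor `i`, a limit of classes of
effective divisors without the component `i`.

`IsBirational`: `Y ⇢ Z` is a birational contraction, `Z` is `ℚ`-factorial, `I` = set of the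
exceptional primes (contractible: take for `p` the pullback of an ample class of `Z`), `U = N¹(Z)_ℝ`,
`π` = push-forward, `L'` = classes of the Weil divisors of `Z`, `G'` = image of `PsAut(Z)`; the family
`push f I π` consists of the classes of the prime divisors of `Z`.

`IsFibration`: `Z → X` is a fibration without divisors over codimension two and with irreducible
fibres over codimension one, `X` is `ℚ`-factorial, `W = N¹(X)_ℝ`, `p` = pullback, `G''` = image of
`PsAut(X)`. An effective divisor which is trivial on the general fibre is a pullback, hence the face.
The preimage of the effective movable cone of `Z` is the effective movable cone of `X`.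
-/

open Set Pool.Agent.Lib.Pad47bb Pool.Agent.Lib.Pad47bbD Pool.Agent.Lib.Pad47bbF

namespace Pool.Agent.Results.MP_ad47bb_ag.Descent

/-- Let `G` be a group of automorphisms of a lattice `L` in `V` which permutes a family `f` of
vectors of `L` (`FamData`). Let `π : V → U` be a birational contraction of the family, with a finite
contractible set `I` of indices, and let `f' = push f I π` be the family of the `π (f i)`, `i ∉ I`
(`IsBirational`). Let `p : W → U` be a fibration for the cone `movF f' ∩ eff f'` (`IsFibration`). If
`G` has a rational polyhedral fundamental domain on `movF f ∩ eff f`, then `G''` has one on the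
preimage in `W` of `movF f' ∩ eff f'`. -/
theorem result {V U W : Type*} [NormedAddCommGroup V] [NormedSpace ℝ V] [FiniteDimensional ℝ V]
    [NormedAddCommGroup U] [NormedSpace ℝ U] [FiniteDimensional ℝ U]
    [NormedAddCommGroup W] [NormedSpace ℝ W] [FiniteDimensional ℝ W] {ι : Type*}
    (L : Submodule ℤ V) (f : ι → V) (G : Subgroup (V ≃ₗ[ℝ] V)) (hf : FamData L f G)
    (I : Finset ι) (π : V →ₗ[ℝ] U) (L' : Submodule ℤ U) [DiscreteTopology L'] [IsZLattice ℝ L']
    (G' : Subgroup (U ≃ₗ[ℝ] U)) (hπ : IsBirational L f G I π L' G')
    (p : W →ₗ[ℝ] U) (L'' : Submodule ℤ W) [DiscreteTopology L''] [IsZLattice ℝ L'']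
    (G'' : Subgroup (W ≃ₗ[ℝ] W))
    (hp : IsFibration L' (movF (push f I π) ⊓ eff (range (push f I π))) G' p L'' G'') :
    HasRPFD L G (movF f ⊓ eff (range f)) →
      HasRPFD L'' G'' ((movF (push f I π) ⊓ eff (range (push f I π))).comap p) :=
  hasRPFD_rational hf hπ hp

end Pool.Agent.Results.MP_ad47bb_ag.Descent
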