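import Pool.Agent.Lib.Pad47bbD.Effective
import Pool.Agent.Lib.Pad47bbD.Fam

/-!
The cone conjecture for the movable cone and for the effective cone.

Dictionary: `X` a `ℚ`-factorial projective variety, `V = N¹(X)_ℝ`, `L` the lattice generated by the
classes of the Weil divisors, `ι` the set of the prime divisors, `f i` the class of `i`,
`eff (range f) = Eff(X)`, `Γ` the image of `PsAut(X)`. The closed movable cone is `movF f`: a class is
a limit of movable classes if and only if it is, for every prime divisor `i`, a limit of classes of
effective divisors without the component `i`.
-/

open Set Pool.Agent.Lib.Pad47bb Pool.Agent.Lib.Pad47bbD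

namespace Pool.Agent.Results.MP_ad47bb_ag.EffectiveCone

/-- Let `L` be a lattice in `V`, `f` a family of vectors of `L` and `Γ` a group of automorphisms of
`L` which permutes the family; let `E = eff (range f)` be the cone generated by the family and
`movF f` the set of the limits of points of `E` which for every index `i` are limits of nonnegative
combinations of the `f j`, `j ≠ i`. Assume that the closure of `E` contains no line and that `movF f`
has interior points (`FamData`).  Then `Γ` has a rational polyhedral fundamental domain on
`movF f ∩ E` if and only if it has one on `E` and `movF f` meets every rational polyhedral cone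
contained in `E` in a rational polyhedral cone.  In this case the lattice points of the closure of
`E` lie in `E`. -/
theorem result {V : Type*} [NormedAddCommGroup V] [NormedSpace ℝ V] [FiniteDimensional ℝ V]
    {ι : Type*} (L : Submodule ℤ V) [DiscreteTopology L] [IsZLattice ℝ L] (f : ι → V)
    (Γ : Subgroup (V ≃ₗ[ℝ] V)) (T : FamData L f Γ) :
    (HasRPFD L Γ (movF f ⊓ eff (range f)) ↔ HasRPFD L Γ (eff (range f)) ∧
      ∀ s : Finset V, (s : Set V) ⊆ L → (s : Set V) ⊆ eff (range f) →
        IsRatPoly L (movF f ⊓ PointedCone.hull ℝ (s : Set V))) ∧
    (HasRPFD L Γ (movF f ⊓ eff (range f)) →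
      ∀ x ∈ L, x ∈ closure (eff (range f) : Set V) → x ∈ eff (range f)) :=
  ⟨effective_iff T.divData, nonvanishing T.divData⟩

end Pool.Agent.Results.MP_ad47bb_ag.EffectiveCone
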