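import Pool.Agent.Lib.Pad47bbV.ThickVol

/-!
Finite volume and the cone conjecture.

Dictionary: `V = N¹(X)_ℝ`, `L` = classes of integral divisors, `N = Nef(X)` (or the closed movable
cone), `M = Nef(X) ∩ Eff(X)` (or the movable cone intersected with `Eff(X)`), `Γ` = image of `Aut(X)`
(or `PsAut(X)`).
-/

open MeasureTheory Pool.Agent.Lib.Pad47bb Pool.Agent.Lib.Pad47bbV

namespace Pool.Agent.Results.MP_ad47bb_ag.FiniteVolume

/-- Let `L` be a lattice in a finite-dimensional real vector space `V ≠ 0`, `N` a closed convex cone
with nonempty interior containing no line, and `Γ` a group of linear automorphisms of `V` preserving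
`L` and `N`.  For every convex cone `M` between the interior of `N` and `N` the following are
equivalent: (1) `Γ` has a rational polyhedral fundamental domain on `M`; (2) `M` is generated by the
lattice points of `N`, and `Γ` acts cocompactly, modulo scaling, on the `ε`-thick points of the
interior of `N` for every `ε > 0`; (3) `M` is generated by the lattice points of `N`, and for every
`ε > 0` the quotient by `Γ` of the set of `ε`-thick points `x` of the interior of `N` with order
interval `[0, x]` of volume at most `1` has finite volume. -/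
theorem result {V : Type*} [NormedAddCommGroup V] [NormedSpace ℝ V] [FiniteDimensional ℝ V]
    [Nontrivial V] [MeasurableSpace V] [BorelSpace V] (μ : Measure V) [μ.IsAddHaarMeasure]
    (L : Submodule ℤ V) [DiscreteTopology L] [IsZLattice ℝ L]
    (N : PointedCone ℝ V) (hN : Good N) (Γ : Subgroup (V ≃ₗ[ℝ] V)) (hA : Acts L N Γ)
    (M : PointedCone ℝ V) (hM1 : interior (N : Set V) ⊆ M) (hM2 : M ≤ N) :
    [HasRPFD L Γ M,
      M = ratHull L N ∧ ThickCocompact L N Γ,
      M = ratHull L N ∧ ThickVolume μ L N Γ].TFAE := by
  tfae_have 1 ↔ 2 := hasRPFD_iff hN hA hM1 hM2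
  tfae_have 2 ↔ 3 := by rw [thickVolume_iff μ hN hA]
  tfae_finish

end Pool.Agent.Results.MP_ad47bb_ag.FiniteVolume
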