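import Pool.Agent.Lib.Pad47bbZ.Image
import Pool.Agent.Lib.Pad47bbZ.Walls
import Pool.Agent.Lib.Pad47bbY.Iff

/-!
The cone conjecture modulo the boundary.

Dictionary: `(X, Δ)` is a projective `ℚ`-factorial klt pair with `K_X + Δ ≡ 0`, `V = N¹(X)_ℝ`, `J` =
the classes of the components of `Δ` (times an integer), `W` their span, `U = V / W`.
(a): `L` = classes of the Cartier divisors, `N = Nef(X)`, `M = Nef(X) ∩ Eff(X)`, `G` = image of
`Aut(X, Δ)`; bounded walls are a consequence of the bound for the length of extremal rays, and the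
nef lattice classes in `int N + W` are effective by the base point free theorem.
(b): `L` = classes of the Weil divisors, `N` = the closed movable cone, `M = N ∩ Eff(X)`, `G` = image
of `PsAut(X, Δ)`; in dimension three `LocPoly` on `int N` and the effectivity of the movable classes
in `W` and in `int N + W` are consequences of the log minimal model program and abundance.
-/

open Set Topology
open Pool.Agent.Lib.Pad47bb Pool.Agent.Lib.Pad47bbB Pool.Agent.Lib.Pad47bbV
open Pool.Agent.Lib.Pad47bbX (induced)
open Pool.Agent.Lib.Pad47bbY (BoundedAlong boundedAlong_iff)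
open Pool.Agent.Lib.Pad47bbZ (ModData)

namespace Pool.Agent.Results.MP_ad47bb_ag.ModuloBoundary

universe u v

variable {V : Type u} [NormedAddCommGroup V] [NormedSpace ℝ V]

/-- `G` has a domain modulo `W = span J`: for some finite set `Y` of lattice points of `N` the
interior of `N` is contained in the union of the cones `g (cone Y + W)`, `g ∈ G`. -/
def DomainModulo (L : Submodule ℤ V) (N : PointedCone ℝ V) (J : Finset V)
    (G : Subgroup (V ≃ₗ[ℝ] V)) : Prop :=
  ∃ Y : Finset V, (∀ y ∈ Y, y ∈ L ∧ y ∈ N) ∧ Covers N J Y G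

/-- `N` meets `cone S + span J` in a rational polyhedral cone, for every finite set `S` of lattice
points of the interior of `N`. -/
def LocPoly (L : Submodule ℤ V) (N : PointedCone ℝ V) (J : Finset V) : Prop :=
  ∀ S : Finset V, (∀ y ∈ S, y ∈ L ∧ y ∈ interior (N : Set V)) → IsRatPoly L (N ⊓ sumCone S J)

/-- `r ≤ 1`, or `r = 2` and `G` is infinite, or `G` contains a free abelian group of rank
`m ≥ r - 1`. -/
def Large (r : ℕ) (G : Subgroup (V ≃ₗ[ℝ] V)) : Prop :=
  r ≤ 1 ∨ (r = 2 ∧ Infinite G) ∨
  ∃ (m : ℕ) (φ : Multiplicative (Fin m → ℤ) →* (V ≃ₗ[ℝ] V)), Function.Injective φ ∧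
    (∀ k, φ k ∈ G) ∧ r ≤ m + 1

/-- Let `N` be a closed convex cone with interior points and without lines, `G` a group of linear
automorphisms preserving the lattice `L` and `N` and permuting the finite set `J` of lattice vectors
(`ModData`), `π : V → U` the quotient by `W = span J`, and `M` a convex cone between the interior of
`N` and `N`.
(1) `G` has a rational polyhedral fundamental domain on `M` if and only if `M` is generated by the
lattice points of `N`, the walls of `N` are bounded along `J`, and `G` has a domain modulo `W`.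
(2) Let the closure of the image `K'` of this cone in `U` contain no line and let `G'` be a group of
automorphisms of `π L` and `K'` which contains the maps induced by `G`. Then `G` has a domain modulo
`W` if and only if `G'` has a rational polyhedral fundamental domain on `K'` and the group induced
by `G` has finite index in `G'`.
(3) Let `r = dim U` and let `G` be `Large`. Then `G` has a domain modulo `W`, and `G` has a rational
polyhedral fundamental domain on `M` if and only if every point of `M` is a combination of lattice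
points of `N`, the lattice points of `N` which are modulo `W` congruent to `0` or to an interior
point of `N` are in `M`, and the walls of `N` are bounded along `J`. The last condition can be
replaced by: `N` meets `cone S + W` in a rational polyhedral cone for every finite set `S` of
lattice points of the interior of `N`. -/
theorem result {U : Type v} [FiniteDimensional ℝ V] [Nontrivial V] [NormedAddCommGroup U]
    [NormedSpace ℝ U] [FiniteDimensional ℝ U] (L : Submodule ℤ V) [DiscreteTopology L]
    [IsZLattice ℝ L] (N : PointedCone ℝ V) (J : Finset V) (G : Subgroup (V ≃ₗ[ℝ] V))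
    (D : ModData L N J G) (π : V →ₗ[ℝ] U) (hsurj : Function.Surjective π)
    (hker : ∀ x, π x = 0 ↔ x ∈ Submodule.span ℝ (J : Set V))
    (M : PointedCone ℝ V) (hM : interior (N : Set V) ⊆ M) (hM' : M ≤ N) :
    (HasRPFD L G M ↔ M = ratHull L N ∧ BoundedAlong L N J ∧ DomainModulo L N J G) ∧
    (∀ (L' : Submodule ℤ U) [DiscreteTopology L'] [IsZLattice ℝ L'] (K' : PointedCone ℝ U)
      (G' : Subgroup (U ≃ₗ[ℝ] U)), (∀ u, u ∈ L' ↔ ∃ x ∈ L, π x = u) →
      (∀ u, u ∈ K' ↔ ∃ x ∈ ratHull L N, π x = u) →
      (∀ u ∈ closure (K' : Set U), -u ∈ closure (K' : Set U) → u = 0) →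
      induced π G ≤ G' → (∀ g ∈ G', ∀ u ∈ L', g u ∈ L') → (∀ g ∈ G', ∀ u ∈ K', g u ∈ K') →
      (DomainModulo L N J G ↔
        HasRPFD L' G' K' ∧ ((induced π G).subgroupOf G').FiniteIndex)) ∧
    (Large (Module.finrank ℝ U) G → DomainModulo L N J G ∧
      (HasRPFD L G M ↔ M ≤ ratHull L N ∧
        (∀ x ∈ L, x ∈ N → (π x = 0 ∨ ∃ y ∈ interior (N : Set V), π x = π y) → x ∈ M) ∧
        BoundedAlong L N J) ∧
      (HasRPFD L G M ↔ M ≤ ratHull L N ∧
        (∀ x ∈ L, x ∈ N → (π x = 0 ∨ ∃ y ∈ interior (N : Set V), π x = π y) → x ∈ M) ∧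
        LocPoly L N J)) := by
  have hdim : Module.finrank ℝ V =
      Module.finrank ℝ (Submodule.span ℝ (J : Set V)) + Module.finrank ℝ U := by
    have h1 := LinearMap.finrank_range_add_finrank_ker π
    rw [LinearMap.range_eq_top.2 hsurj, finrank_top] at h1
    have h2 : LinearMap.ker π = Submodule.span ℝ (J : Set V) := by
      ext x
      rw [LinearMap.mem_ker, hker]
    rw [h2] at h1
    omega
  refine ⟨?_, ?_, fun h => ?_⟩
  · rw [D.hasRPFD_iff_walls hM hM', boundedAlong_iff D.comp]
    exact and_congr_right fun _ => and_comm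
  · intro L' _ _ K' G' hL' hK' hs hG' hG'L hG'K
    exact D.covers_iff_image hsurj hker hL' hK' hs hG' hG'L hG'K
  · obtain ⟨Y, hY, hcov⟩ : ∃ Y : Finset V, (∀ y ∈ Y, y ∈ L ∧ y ∈ interior (N : Set V)) ∧
        Covers N J Y G := by
      rcases h with h | ⟨h, hinf⟩ | ⟨m, φ, hφ, hφG, h⟩
      · exact D.exists_cover_one (by omega)
      · exact D.exists_cover_large (Or.inr ⟨hinf, by omega⟩)
      · exact D.exists_cover_large (Or.inl ⟨m, φ, hφ, hφG, by omega⟩)
    have hdom : DomainModulo L N J G :=
      ⟨Y, fun y hy => ⟨(hY y hy).1, interior_subset (hY y hy).2⟩, hcov⟩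
    refine ⟨hdom, ?_⟩
    have hiff := D.hasRPFD_iff_of_interior hM hM' hY hcov
    have hcond : (∀ x ∈ L, x ∈ N → (π x = 0 ∨ ∃ y ∈ interior (N : Set V), π x = π y) → x ∈ M) ↔
        ∀ x ∈ L, x ∈ N → (x ∈ Submodule.span ℝ (J : Set V) ∨
          ∃ y ∈ interior (N : Set V), x - y ∈ Submodule.span ℝ (J : Set V)) → x ∈ M := by
      have h1 : ∀ x y : V, π x = π y ↔ x - y ∈ Submodule.span ℝ (J : Set V) := fun x y => by
        rw [← hker, map_sub, sub_eq_zero]
      simp only [hker, h1]
    rw [hcond]
    refine ⟨⟨fun hR => ?_, fun hR => hiff.2 ⟨hR.1, hR.2.1, ?_⟩⟩, hiff⟩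
    · obtain ⟨h1, h2, -⟩ := hiff.1 hR
      exact ⟨h1, h2, (boundedAlong_iff D.comp).2 ((D.hasRPFD_iff_walls hM hM').1 hR).2.2⟩
    · obtain ⟨Ξ, hΞ⟩ := (boundedAlong_iff D.comp).1 hR.2.2
      exact fun S hS => isRatPoly_inf hΞ S fun y hy => ⟨(hS y hy).1, interior_subset (hS y hy).2⟩

end Pool.Agent.Results.MP_ad47bb_ag.ModuloBoundary
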